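import Pool.Agent.Helper2.HY.Defs
import Pool.Agent.Helper27.TF.BcdMain

/-!
Project HY (MP_b8862a_ag), block 1: types `B`, `C`, `D`, levels `-1`, `0`, `1`.
-/

set_option linter.unusedSectionVars false
set_option linter.unusedVariables false

open Module PF

namespace TF

/-- The combinatorial core: `z` the coordinates of a weight of maximal level in its orbit, `Y` twice the coordinates of the
grading element. -/
theorem core43 {m : ℕ} (hm : 9 ≤ m) {z Y : Fin m → ℤ} (hp : ∀ i j, i ≠ j → 0 ≤ (z i + z j) * (Y i + Y j))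
    (hq : ∀ i j, i ≠ j → 0 ≤ (z i - z j) * (Y i - Y j)) (hsum : ∑ i, z i * Y i ≤ 2)
    (hpar : ∀ i j, Even (Y i - Y j)) (hY : ∃ i, Y i ≠ 0) (hz : 2 ≤ ∑ i, z i ^ 2) :
    ((∀ i, |Y i| = 1) ∧ ∑ i, |z i| = 2) ∨ ∃ i1, |Y i1| = 2 ∧ (∀ j, j ≠ i1 → Y j = 0) ∧ ∀ i, |z i| ≤ 1 := by
  classical
  have hpq : ∀ i j, i ≠ j → 0 ≤ z i * Y i + z j * Y j := by
    intro i j hij
    have h1 := hp i j hij
    have h2 := hq i j hij
    nlinarith
  -- no negative term
  have hnn : ∀ i, 0 ≤ z i * Y i := by
    intro k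
    by_contra hk
    push Not at hk
    have h1 : ∀ j ∈ Finset.univ.erase k, -(z k * Y k) ≤ z j * Y j := by
      intro j hj
      have h2 := hpq j k (Finset.mem_erase.1 hj).1
      linarith
    have h2 := Finset.card_nsmul_le_sum _ _ _ h1
    rw [Finset.card_erase_of_mem (Finset.mem_univ _), Finset.card_univ, Fintype.card_fin] at h2
    have h3 : ∑ i, z i * Y i = z k * Y k + ∑ i ∈ Finset.univ.erase k, z i * Y i :=
      (Finset.add_sum_erase _ _ (Finset.mem_univ k)).symm
    obtain ⟨q, rfl⟩ : ∃ q, m = q + 9 := ⟨m - 9, by omega⟩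
    have h4 : q + 9 - 1 = q + 8 := by omega
    rw [h4, nsmul_eq_mul] at h2
    push_cast at h2
    have h5 : (0 : ℤ) ≤ q := Int.natCast_nonneg q
    nlinarith
  have hle : ∀ i, z i * Y i ≤ 2 := by
    intro i
    have h1 := Finset.single_le_sum (fun j _ => hnn j) (Finset.mem_univ i)
    linarith
  -- the other terms if one is equal to two
  obtain ⟨k0, hk0⟩ : ∃ k, z k ≠ 0 := by
    by_contra hcon
    push Not at hcon
    have : ∑ i, z i ^ 2 = 0 := Finset.sum_eq_zero fun i _ => by rw [hcon i]; norm_num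
    omega
  rcases Int.even_or_odd (Y k0) with hev | hodd
  · -- all even
    right
    have hE : ∀ i, ∃ q, Y i = 2 * q := by
      intro i
      obtain ⟨a, ha⟩ := hpar i k0
      obtain ⟨b, hb⟩ := hev
      exact ⟨a + b, by omega⟩
    -- some term is not zero
    obtain ⟨i1, hi1⟩ : ∃ i1, z i1 * Y i1 ≠ 0 := by
      by_contra hcon
      push Not at hcon
      obtain ⟨i, hi⟩ := hY
      have h1 : z i = 0 := by
        rcases mul_eq_zero.1 (hcon i) with h | h
        · exact h
        · exact absurd h hi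
      have h2 : Y k0 = 0 := by
        rcases mul_eq_zero.1 (hcon k0) with h | h
        · exact absurd h hk0
        · exact h
      have hik : i ≠ k0 := fun h => hk0 (h ▸ h1)
      have h3 := hp i k0 hik
      have h4 := hq i k0 hik
      rw [h1, h2] at h3 h4
      have h5 : z k0 * Y i = 0 := by nlinarith
      rcases mul_eq_zero.1 h5 with h | h
      · exact hk0 h
      · exact hi h
    have ht1 : z i1 * Y i1 = 2 := by
      obtain ⟨q, hq'⟩ := hE i1
      have h1 := hnn i1
      have h2 := hle i1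
      rw [hq'] at h1 h2 hi1 ⊢
      have h3 : z i1 * (2 * q) = 2 * (z i1 * q) := by ring
      rw [h3] at h1 h2 hi1 ⊢
      omega
    have ht0 : ∀ j, j ≠ i1 → z j * Y j = 0 := by
      intro j hj
      have h1 : z i1 * Y i1 + z j * Y j ≤ ∑ i, z i * Y i := by
        rw [← Finset.add_sum_erase _ _ (Finset.mem_univ i1)]
        have h2 := Finset.single_le_sum (f := fun i => z i * Y i) (fun i _ => hnn i)
          (Finset.mem_erase.2 ⟨hj, Finset.mem_univ j⟩)
        linarith
      have h2 := hnn j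
      linarith
    have hY1 : |Y i1| = 2 ∧ |z i1| = 1 := by
      obtain ⟨q, hq'⟩ := hE i1
      have h1 : z i1 * q = 1 := by
        rw [hq'] at ht1
        nlinarith
      have h2 : |z i1| * |q| = 1 := by rw [← abs_mul, h1, abs_one]
      have h3 : |z i1| = 1 := Int.eq_one_or_neg_one_of_mul_eq_one h2 |>.resolve_right (by
        intro h4
        have := abs_nonneg (z i1)
        omega)
      have h4 : |q| = 1 := by
        rw [h3, one_mul] at h2
        exact h2
      refine ⟨?_, h3⟩
      rw [hq', abs_mul, h4]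
      norm_num
    have hz1 : z i1 ^ 2 = 1 := by rw [← sq_abs, hY1.2]; norm_num
    obtain ⟨j0, hj0, hzj0⟩ : ∃ j0, j0 ≠ i1 ∧ z j0 ≠ 0 := by
      by_contra hcon
      push Not at hcon
      have h1 : ∑ i, z i ^ 2 = z i1 ^ 2 := by
        refine Finset.sum_eq_single i1 (fun i _ hi => by rw [hcon i hi]; norm_num) (fun h => absurd (Finset.mem_univ _) h)
      rw [h1, hz1] at hz
      omega
    have hYj0 : Y j0 = 0 := by
      rcases mul_eq_zero.1 (ht0 j0 hj0) with h | h
      · exact absurd h hzj0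
      · exact h
    refine ⟨i1, hY1.1, ?_, ?_⟩
    · intro j hj
      by_contra hYj
      have hzj : z j = 0 := by
        rcases mul_eq_zero.1 (ht0 j hj) with h | h
        · exact h
        · exact absurd h hYj
      have hjj : j ≠ j0 := fun h => hYj (h ▸ hYj0)
      have h3 := hp j j0 hjj
      have h4 := hq j j0 hjj
      rw [hzj, hYj0] at h3 h4
      have h5 : z j0 * Y j = 0 := by nlinarith
      rcases mul_eq_zero.1 h5 with h | h
      · exact hzj0 h
      · exact hYj h
    · intro i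
      by_cases hi : i = i1
      · rw [hi, hY1.2]
      · by_cases hzi : z i = 0
        · rw [hzi]
          norm_num
        · have hYi : Y i = 0 := by
            rcases mul_eq_zero.1 (ht0 i hi) with h | h
            · exact absurd h hzi
            · exact h
          have h3 := hp i1 i (Ne.symm hi)
          have h4 := hq i1 i (Ne.symm hi)
          rw [hYi] at h3 h4
          have h5 : |z i * Y i1| ≤ 2 := by
            rw [abs_le]
            constructor <;> nlinarith
          rw [abs_mul, hY1.1] at h5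
          linarith
  · -- all odd
    left
    have hO : ∀ i, 1 ≤ |Y i| := by
      intro i
      apply Int.one_le_abs
      intro h
      obtain ⟨a, ha⟩ := hpar i k0
      obtain ⟨b, hb⟩ := hodd
      omega
    have habs : ∀ i, z i * Y i = |z i| * |Y i| := by
      intro i
      rw [← abs_mul, abs_of_nonneg (hnn i)]
    have hge : ∀ i, |z i| ≤ z i * Y i := by
      intro i
      rw [habs i]
      have := hO i
      have := abs_nonneg (z i)
      nlinarith
    have hs2 : ∑ i, |z i| ≤ 2 := (Finset.sum_le_sum fun i _ => hge i).trans hsum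
    have hs2' : ∑ i, |z i| = 2 := by
      by_contra hne
      have h1 : ∑ i, |z i| ≤ 1 := by omega
      have h2 : ∑ i, z i ^ 2 ≤ ∑ i, |z i| := by
        apply Finset.sum_le_sum
        intro i _
        have h3 : |z i| ≤ 1 := (Finset.single_le_sum (f := fun i => |z i|) (fun j _ => abs_nonneg _) (Finset.mem_univ i)).trans h1
        rw [← sq_abs]
        have := abs_nonneg (z i)
        nlinarith
      omega
    have heq : ∀ i, z i * Y i = |z i| := by
      have h1 : ∑ i, (z i * Y i - |z i|) ≤ 0 := by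
        rw [Finset.sum_sub_distrib, hs2']
        linarith
      intro i
      have h2 := (Finset.single_le_sum (f := fun i => z i * Y i - |z i|) (fun j _ => by
        have := hge j
        linarith) (Finset.mem_univ i)).trans h1
      have h3 := hge i
      linarith
    have hk1 : |Y k0| = 1 := by
      have h1 := heq k0
      rw [habs k0] at h1
      have h2 : |z k0| ≠ 0 := abs_ne_zero.2 hk0
      have h3 : |z k0| * (|Y k0| - 1) = 0 := by linarith
      rcases mul_eq_zero.1 h3 with h | h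
      · exact absurd h h2
      · linarith
    refine ⟨?_, hs2'⟩
    intro j
    by_cases hzj : z j = 0
    · have hjk : k0 ≠ j := fun h => hk0 (h ▸ hzj)
      have h3 := hp k0 j hjk
      have h4 := hq k0 j hjk
      rw [hzj] at h3 h4
      have h5 : |z k0 * Y j| ≤ z k0 * Y k0 := by
        rw [abs_le]
        constructor <;> nlinarith
      rw [heq k0, abs_mul] at h5
      have h6 : 0 < |z k0| := abs_pos.2 hk0
      have h7 : |Y j| ≤ 1 := by
        by_contra hcon
        push Not at hcon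
        nlinarith
      have := hO j
      omega
    · have h1 := heq j
      rw [habs j] at h1
      have h2 : |z j| ≠ 0 := abs_ne_zero.2 hzj
      have h3 : |z j| * (|Y j| - 1) = 0 := by linarith
      rcases mul_eq_zero.1 h3 with h | h
      · exact absurd h h2
      · linarith

variable {E : Type*} [NormedAddCommGroup E] [InnerProductSpace ℝ E] {Φ X : Finset E}
  {m : ℕ} {e : Fin m → E} {c : ℝ} {d : ℕ} {n T s : ℕ} {l y : E}

/-- the support of a weight is small -/
theorem Fr.supp43 (F : Fr Φ m e c d) (hX : Sat Φ X) {x : E} (hx : x ∈ X) (A : Finset (Fin m))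
    (hA : ∀ i ∈ A, cx e c x i ≠ 0) : 2 ^ (A.card - 1) ≤ X.card := by
  classical
  rcases A.eq_empty_or_nonempty with rfl | ⟨i0, hi0⟩
  · simpa using Finset.card_pos.2 ⟨x, hx⟩
  have key : ∀ T : Finset (Fin m), T ⊆ A.erase i0 → ∃ y ∈ X, (∀ k ∈ T, cx e c y k = -cx e c x k) ∧
      ∀ k, k ∉ T → k ≠ i0 → cx e c y k = cx e c x k := by
    intro T
    induction T using Finset.induction_on with
    | empty =>
      intro _
      exact ⟨x, hx, fun k hk => absurd hk (Finset.notMem_empty _), fun k _ _ => rfl⟩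
    | insert a T haT ih =>
      intro hT
      obtain ⟨y, hy, h1, h2⟩ := ih fun k hk => hT (Finset.mem_insert_of_mem hk)
      have ha := Finset.mem_erase.1 (hT (Finset.mem_insert_self a T))
      obtain ⟨y', hy', h3⟩ := F.flip hX hy ha.1
      refine ⟨y', hy', ?_, ?_⟩
      · intro k hk
        rcases Finset.mem_insert.1 hk with rfl | hk
        · rw [h3, if_pos (Or.inl rfl), h2 _ haT ha.1]
        · have hk0 := (Finset.mem_erase.1 (hT (Finset.mem_insert_of_mem hk))).1
          rw [h3, if_neg (by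
            rintro (h | h)
            · exact haT (h ▸ hk)
            · exact hk0 h), h1 k hk]
      · intro k hk hk0
        rw [h3, if_neg (by
          rintro (h | h)
          · exact hk (h ▸ Finset.mem_insert_self _ _)
          · exact hk0 h)]
        exact h2 k (fun h => hk (Finset.mem_insert_of_mem h)) hk0
  choose! f hf1 hf2 hf3 using key
  have h1 : ((A.erase i0).powerset.image f).card = 2 ^ (A.card - 1) := by
    rw [Finset.card_image_of_injOn, Finset.card_powerset, Finset.card_erase_of_mem hi0]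
    intro T hT T' hT' heq
    have hT1 := Finset.mem_powerset.1 (Finset.mem_coe.1 hT)
    have hT2 := Finset.mem_powerset.1 (Finset.mem_coe.1 hT')
    have h4 : ∀ T T' : Finset (Fin m), T ⊆ A.erase i0 → T' ⊆ A.erase i0 → f T = f T' → T ⊆ T' := by
      intro T T' a1 a2 a3 k hk
      by_contra hk'
      have hk2 := Finset.mem_erase.1 (a1 hk)
      have h5 := hf2 T a1 k hk
      have h6 := hf3 T' a2 k hk' hk2.1
      rw [a3, h6] at h5
      exact hA k hk2.2 (by linarith)
    exact Finset.Subset.antisymm (h4 T T' hT1 hT2 heq) (h4 T' T hT2 hT1 heq.symm)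
  rw [← h1]
  refine Finset.card_le_card ?_
  intro v hv
  obtain ⟨T, hT, rfl⟩ := Finset.mem_image.1 hv
  exact hf1 T (Finset.mem_powerset.1 hT)

/-- the support of a weight is at most logarithmic -/
theorem In.supp43 (h : In Φ X n T l y) (F : Fr Φ m e c d) {x : E} (hx : x ∈ X) (A : Finset (Fin m))
    (hA : ∀ i ∈ A, cx e c x i ≠ 0) : A.card ≤ Lg n := by
  have h1 := (F.supp43 h.sat hx A hA).trans h.card_le
  have h2 := Nat.le_log_of_pow_le (b := 2) (by norm_num) h1
  unfold Lg
  omega

theorem refl_refl43 (h : RS Φ) {a : E} (ha : a ∈ Φ) (x : E) :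
    (x - co a x • a) - co a (x - co a x • a) • a = x := by
  have h1 : co a (x - co a x • a) = -co a x := by
    unfold co
    rw [inner_sub_left, inner_smul_left]
    have := h.inner_pos ha
    simp only [conj_trivial]
    field_simp
    ring
  rw [h1, neg_smul]
  abel

/-- the Casimir constant is invariant under the reflections -/
theorem cas_refl43 (h : RS Φ) {a : E} (ha : a ∈ Φ) (x : E) : cas Φ (x - co a x • a) = cas Φ x := by
  unfold cas
  rw [h.inner_refl ha x x]
  congr 2
  refine Finset.sum_nbij' (fun b => b - co a b • a) (fun b => b - co a b • a) (fun b hb => h.refl a ha b hb)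
    (fun b hb => h.refl a ha b hb) (fun b _ => refl_refl43 h ha b) (fun b _ => refl_refl43 h ha b) ?_
  intro b _
  congr 1
  have h1 := h.inner_refl ha (x - co a x • a) b
  rw [refl_refl43 h ha x] at h1
  exact h1.symm

/-- a weight of maximal level with the norm and the Casimir constant of the highest weight -/
theorem In.exists_max43 (h : In Φ X n T l y) : ∃ x ∈ X, cas Φ x = cas Φ l ∧ (inner ℝ x x : ℝ) = inner ℝ l l ∧
    ∀ a ∈ Φ, 0 ≤ (inner ℝ x a : ℝ) * inner ℝ a y := by
  classical
  obtain ⟨x, hx, hmax⟩ := Finset.exists_max_image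
    (X.filter fun x => cas Φ x = cas Φ l ∧ (inner ℝ x x : ℝ) = inner ℝ l l) (fun x => (inner ℝ x y : ℝ))
    ⟨l, Finset.mem_filter.2 ⟨h.l_mem, rfl, rfl⟩⟩
  obtain ⟨hxX, hx1, hx2⟩ := Finset.mem_filter.1 hx
  refine ⟨x, hxX, hx1, hx2, ?_⟩
  intro a ha
  have h1 := hmax (x - co a x • a) (Finset.mem_filter.2 ⟨Sat.refl27 h.sat ha (h.rs.neg_mem ha) hxX, by
    rw [cas_refl43 h.rs ha, hx1], by
    rw [h.rs.inner_refl ha, hx2]⟩)
  rw [inner_sub_left, inner_smul_left] at h1
  simp only [conj_trivial] at h1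
  have h2 : 0 ≤ co a x * inner ℝ a y := by linarith
  unfold co at h2
  have h3 := h.rs.inner_pos ha
  have h4 : 2 * inner ℝ x a / inner ℝ a a * inner ℝ a y = (inner ℝ x a * inner ℝ a y) * (2 / inner ℝ a a) := by
    field_simp
  rw [h4] at h2
  by_contra hcon
  push Not at hcon
  have h5 : (0 : ℝ) < 2 / inner ℝ a a := by positivity
  nlinarith

/-- the Casimir constant of a vector with coordinates `0`, `± 1` -/
theorem Fr.cas_one43 (F : Fr Φ m e c d) (hm : 2 ≤ m) {x : E} (hx : x ∈ Submodule.span ℝ (Φ : Set E))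
    (z : Fin m → ℤ) (hz : ∀ i, cx e c x i = z i) (h1 : ∀ i, |z i| ≤ 1) {K : ℕ} (hK : ∑ i, |z i| = K) :
    cas Φ x = c ^ 2 * (K * (2 * m - K + d)) := by
  have h01 : ∀ i, |(z i : ℝ)| * |(z i : ℝ)| = |(z i : ℝ)| := by
    intro i
    have h2 : |z i| = 0 ∨ |z i| = 1 := by
      have := h1 i
      have := abs_nonneg (z i)
      omega
    rcases h2 with h2 | h2
    · have : z i = 0 := abs_eq_zero.1 h2
      rw [this]
      simp
    · rw [← Int.cast_abs, h2]
      norm_num
  have h0or : ∀ i, |(z i : ℝ)| = 0 ∨ |(z i : ℝ)| = 1 := by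
    intro i
    have h2 : |(z i : ℝ)| * (|(z i : ℝ)| - 1) = 0 := by
      have := h01 i
      linarith
    rcases mul_eq_zero.1 h2 with h | h
    · exact Or.inl h
    · exact Or.inr (by linarith)
  have hKr : ∑ i, |(z i : ℝ)| = K := by
    have : ((∑ i, |z i| : ℤ) : ℝ) = ((K : ℤ) : ℝ) := by rw [hK]
    push_cast at this
    exact this
  have hsq : ∑ i, (z i : ℝ) ^ 2 = K := by
    rw [← hKr]
    refine Finset.sum_congr rfl fun i _ => ?_
    rw [← sq_abs, pow_two, h01 i]
  have hmax : ∀ i j, max |(z i : ℝ)| |(z j : ℝ)| = |(z i : ℝ)| + |(z j : ℝ)| - |(z i : ℝ)| * |(z j : ℝ)| := by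
    intro i j
    rcases h0or i with h | h <;> rcases h0or j with h' | h' <;> rw [h, h'] <;> norm_num
  rw [F.cas_eq hm hx z hz, sum_off (fun i j => max |(z i : ℝ)| |(z j : ℝ)|), hsq, hKr]
  simp only [hmax]
  have h3 : ∑ i : Fin m, ∑ j : Fin m, (|(z i : ℝ)| + |(z j : ℝ)| - |(z i : ℝ)| * |(z j : ℝ)|) = 2 * m * K - K * K := by
    simp only [Finset.sum_sub_distrib, Finset.sum_add_distrib, Finset.sum_const, Finset.card_univ, Fintype.card_fin,
      nsmul_eq_mul, ← Finset.mul_sum, ← Finset.sum_mul, hKr]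
    ring
  have h4 : ∑ i : Fin m, (|(z i : ℝ)| + |(z i : ℝ)| - |(z i : ℝ)| * |(z i : ℝ)|) = K := by
    rw [← hKr]
    refine Finset.sum_congr rfl fun i _ => ?_
    rw [h01 i]
    ring
  rw [h3, h4]
  ring

/-- the elements of the root lattice have integral coordinates -/
theorem Fr.lattice43 (F : Fr Φ m e c d) {v : E} (hv : v ∈ AddSubgroup.closure (Φ : Set E)) (k : Fin m) :
    ∃ q : ℤ, cx e c v k = q := by
  classical
  induction hv using AddSubgroup.closure_induction with
  | mem a ha =>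
    rw [SetLike.mem_coe, F.image] at ha
    have key : ∀ s t : ℤ, ∀ i j, ∃ q : ℤ, cx e c (rt e c s t i j) k = q := by
      intro s t i j
      refine ⟨s * (if i = k then 1 else 0) + t * (if j = k then 1 else 0), ?_⟩
      rw [F.cx_rt]
      push_cast
      rfl
    rcases Finset.mem_union.1 ha with h | h
    · rcases Finset.mem_union.1 h with h | h
      · obtain ⟨p, hp, rfl⟩ := Finset.mem_image.1 h
        exact key _ _ _ _
      · obtain ⟨p, hp, rfl⟩ := Finset.mem_image.1 h
        exact key _ _ _ _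
    · by_cases hd0 : d = 0
      · rw [if_pos hd0] at h
        exact absurd h (Finset.notMem_empty _)
      · rw [if_neg hd0] at h
        rcases Finset.mem_union.1 h with h | h
        · obtain ⟨i, _, rfl⟩ := Finset.mem_image.1 h
          refine ⟨d * (if i = k then 1 else 0), ?_⟩
          rw [F.cx_long]
          push_cast
          rfl
        · obtain ⟨i, _, rfl⟩ := Finset.mem_image.1 h
          refine ⟨-d * (if i = k then 1 else 0), ?_⟩
          rw [F.cx_long]
          push_cast
          rfl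
  | zero => exact ⟨0, by simp [cx]⟩
  | add v w _ _ hv hw =>
    obtain ⟨p, hp⟩ := hv
    obtain ⟨q, hq⟩ := hw
    refine ⟨p + q, ?_⟩
    unfold cx at hp hq ⊢
    rw [inner_add_left, add_div, hp, hq]
    push_cast
    rfl
  | neg v _ hv =>
    obtain ⟨p, hp⟩ := hv
    refine ⟨-p, ?_⟩
    rw [cx_neg, hp]
    push_cast
    rfl

/-- if one weight is integral, all are -/
theorem Fr.int_all43 (F : Fr Φ m e c d) (hX : Sat Φ X) {x0 : E} (hx0 : x0 ∈ X) (z0 : Fin m → ℤ)
    (hz0 : ∀ i, cx e c x0 i = z0 i) {x : E} (hx : x ∈ X) : ∃ z : Fin m → ℤ, ∀ i, cx e c x i = z i := by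
  have h1 := hX.coset x hx x0 hx0
  have h2 : ∀ i, ∃ q : ℤ, cx e c x i = q := by
    intro i
    obtain ⟨q, hq⟩ := F.lattice43 h1 i
    refine ⟨q + z0 i, ?_⟩
    unfold cx at hq
    rw [inner_sub_left, sub_div] at hq
    have := hz0 i
    unfold cx at this ⊢
    push_cast
    linarith
  choose z hz using h2
  exact ⟨z, hz⟩

/-- integral vectors with `∑ z ^ 2 ≤ 1` -/
theorem small_one43 {z : Fin m → ℤ} (h : ∑ i, z i ^ 2 ≤ 1) : (∀ i, z i = 0) ∨
    (∃ k, |z k| = 1 ∧ ∀ j, j ≠ k → z j = 0) := by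
  classical
  by_cases h0 : ∀ i, z i = 0
  · exact Or.inl h0
  right
  push Not at h0
  obtain ⟨k, hk⟩ := h0
  have h1 : ∀ i, z i ^ 2 ≤ 1 := fun i =>
    (Finset.single_le_sum (f := fun i => z i ^ 2) (fun j _ => sq_nonneg _) (Finset.mem_univ i)).trans h
  have hk1 : |z k| = 1 := by
    have h2 := Int.one_le_abs hk
    have h3 := h1 k
    rw [← sq_abs] at h3
    nlinarith
  refine ⟨k, hk1, ?_⟩
  intro j hj
  have h2 : ∑ i, z i ^ 2 = z k ^ 2 + ∑ i ∈ Finset.univ.erase k, z i ^ 2 :=
    (Finset.add_sum_erase _ _ (Finset.mem_univ k)).symm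
  have h3 := Finset.single_le_sum (f := fun i => z i ^ 2) (fun j _ => sq_nonneg _)
    (Finset.mem_erase.2 ⟨hj, Finset.mem_univ j⟩)
  have h4 : z k ^ 2 = 1 := by rw [← sq_abs, hk1]; norm_num
  have h5 : z j ^ 2 ≤ 0 := by linarith
  have h6 := sq_nonneg (z j)
  exact pow_eq_zero_iff (two_ne_zero) |>.1 (le_antisymm h5 h6)

/-- the standard representations -/
theorem In.standard43 (h : In Φ X n T l y) (F : Fr Φ m e c d) (hm : 3 ≤ m) (z : Fin m → ℤ)
    (hz : ∀ i, cx e c l i = z i) (hz1 : ∑ i, z i ^ 2 ≤ 1) : TypeB Φ X ∨ TypeD Φ X := by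
  classical
  have hc := F.pos
  have hc2 : (0 : ℝ) < c ^ 2 := by positivity
  have hm2 : 2 ≤ m := by omega
  have hlsp := Sat.span27 h.sat h.l_mem
  have hln := F.norm_eq hm2 hlsp z hz
  rcases small_one43 hz1 with hz0 | ⟨k, hk, hj⟩
  · exfalso
    apply h.l_ne
    have : (inner ℝ l l : ℝ) = 0 := by rw [hln]; simp [hz0]
    exact inner_self_eq_zero.1 this
  have hall := F.all_single h.sat (k := k) (by
    rcases F.eq_single hm2 hlsp z hz hk hj with h1 | h1
    · exact Or.inl (h1 ▸ h.l_mem)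
    · exact Or.inr (h1 ▸ h.l_mem))
  have hform : ∀ x ∈ X, x = 0 ∨ ∃ i, x = c • e i ∨ x = -(c • e i) := by
    intro x hx
    obtain ⟨w, hw⟩ := F.int_all43 h.sat h.l_mem z hz hx
    have hxsp := Sat.span27 h.sat hx
    have hxn := F.norm_eq hm2 hxsp w hw
    have hle := h.l_max x hx
    rw [hxn, hln] at hle
    have h2 : ∑ i, (w i : ℝ) ^ 2 ≤ ∑ i, (z i : ℝ) ^ 2 := le_of_mul_le_mul_left hle hc2
    have h3 : ∑ i, w i ^ 2 ≤ 1 := by
      have h4 : ((∑ i, w i ^ 2 : ℤ) : ℝ) ≤ ((∑ i, z i ^ 2 : ℤ) : ℝ) := by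
        push_cast
        exact h2
      have h5 : ∑ i, w i ^ 2 ≤ ∑ i, z i ^ 2 := by exact_mod_cast h4
      exact h5.trans hz1
    rcases small_one43 h3 with h0 | ⟨i, hi, hj'⟩
    · left
      have : (inner ℝ x x : ℝ) = 0 := by rw [hxn]; simp [h0]
      exact inner_self_eq_zero.1 this
    · exact Or.inr ⟨i, F.eq_single hm2 hxsp w hw hi hj'⟩
  by_cases hd : d = 1
  · -- type B
    left
    refine ⟨m, e, F.on, c, F.pos, fun x => ⟨hform x, ?_⟩, fun a => ?_⟩
    · rintro (rfl | ⟨i, rfl | rfl⟩)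
      · have h2 : ((d : ℝ) * c) • e k ∈ Φ := by
          rw [F.mem]
          exact Or.inr ⟨by omega, k, Or.inl rfl⟩
        have h3 := h.sat.str _ h2 _ (hall k) 1 (by
          unfold co
          rw [inner_smul_left, inner_smul_right, inner_smul_left, inner_smul_right, F.inner_e, if_pos rfl, hd]
          simp only [conj_trivial]
          push_cast
          field_simp
          norm_num)
        rw [hd, Nat.cast_one, one_mul, one_smul, sub_self] at h3
        exact h3
      · exact hall i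
      · exact h.sat.neg _ (hall i)
    · rw [F.mem a, hd]
      constructor
      · rintro (⟨i, j, hij, h1⟩ | ⟨_, i, h1⟩)
        · exact Or.inr ⟨i, j, hij, h1⟩
        · rw [Nat.cast_one, one_mul] at h1
          exact Or.inl ⟨i, h1⟩
      · rintro (⟨i, h1⟩ | ⟨i, j, hij, h1⟩)
        · refine Or.inr ⟨by norm_num, i, ?_⟩
          rw [Nat.cast_one, one_mul]
          exact h1
        · exact Or.inl ⟨i, j, hij, h1⟩
  · -- type D
    right
    refine ⟨m, e, F.on, c, F.pos, hm, fun x => ⟨fun hx => ?_, ?_⟩, fun i j hij => ⟨?_, ?_, ?_⟩⟩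
    · rcases hform x hx with rfl | h1
      · exfalso
        have h2 := h.sat.coset _ (hall k) _ hx
        rw [sub_zero] at h2
        obtain ⟨q, hq⟩ := F.parity hd h2
        have h3 : ∑ i, cx e c (c • e k) i = 1 := by
          simp only [F.cx_e, Finset.sum_ite_eq, Finset.mem_univ, if_true]
        rw [h3] at hq
        have h4 : (1 : ℤ) = 2 * q := by exact_mod_cast hq
        omega
      · exact h1
    · rintro ⟨i, rfl | rfl⟩
      · exact hall i
      · exact h.sat.neg _ (hall i)
    · rw [F.mem]; exact Or.inl ⟨i, j, hij, Or.inl rfl⟩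
    · rw [F.mem]; exact Or.inl ⟨i, j, hij, Or.inr (Or.inl rfl)⟩
    · rw [F.mem]; exact Or.inl ⟨i, j, hij, Or.inr (Or.inr rfl)⟩

/-- the Casimir constant of `± 2 e_k` -/
theorem Fr.cas_two43 (F : Fr Φ m e c d) (hm : 2 ≤ m) {x : E} (hx : x ∈ Submodule.span ℝ (Φ : Set E))
    (z : Fin m → ℤ) (hz : ∀ i, cx e c x i = z i) {k : Fin m} (hk : |z k| = 2) (hj : ∀ j, j ≠ k → z j = 0) :
    cas Φ x = c ^ 2 * (4 * m + 2 * d) := by
  classical
  have hcas := F.cas_eq hm hx z hz
  have hsumsingle : ∀ (f : ℤ → ℝ), f 0 = 0 → ∑ i, f (z i) = f (z k) := by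
    intro f hf
    refine Finset.sum_eq_single k (fun i _ hi => by rw [hj i hi, hf]) (fun h => absurd (Finset.mem_univ k) h)
  have hzk2 : (z k : ℝ) ^ 2 = 4 := by
    have : (z k) ^ 2 = 4 := by rw [← sq_abs, hk]; norm_num
    exact_mod_cast this
  have hs1 : ∑ i, (z i : ℝ) ^ 2 = 4 := by
    rw [hsumsingle (fun x => (x : ℝ) ^ 2) (by norm_num), hzk2]
  have habs : |(z k : ℝ)| = 2 := by
    rw [← Int.cast_abs, hk]; norm_num
  have hs2 : ∑ i, |(z i : ℝ)| = 2 := by
    rw [hsumsingle (fun x => |(x : ℝ)|) (by norm_num), habs]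
  have hs3 : ∑ p ∈ (Finset.univ : Finset (Fin m)).offDiag, max |(z p.1 : ℝ)| |(z p.2 : ℝ)| = 4 * m - 4 := by
    have h1 : ∑ p ∈ (Finset.univ : Finset (Fin m)).offDiag, max |(z p.1 : ℝ)| |(z p.2 : ℝ)| =
        ∑ p ∈ (Finset.univ : Finset (Fin m)).offDiag, (|(z p.1 : ℝ)| + |(z p.2 : ℝ)|) := by
      refine Finset.sum_congr rfl fun p hp => ?_
      have hp' := (Finset.mem_offDiag.1 hp).2.2
      by_cases h2 : p.1 = k
      · have h3 : z p.2 = 0 := hj _ (fun h => hp' (h2.trans h.symm))
        rw [h3]; simp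
      · rw [hj _ h2]; simp
    rw [h1, sum_off (fun i j => |(z i : ℝ)| + |(z j : ℝ)|)]
    simp only [Finset.sum_add_distrib, Finset.sum_const, Finset.card_univ, Fintype.card_fin, nsmul_eq_mul]
    rw [← Finset.mul_sum, hs2]
    ring
  rw [hs1, hs2, hs3] at hcas
  rw [hcas]
  ring

/-- **BLOCK 1** (types `B`, `C`, `D`, three levels) -/
theorem In.bcd3 (h : In Φ X n (8 * s) l y) (h3 : Lev3 X y) (F : Fr Φ m e c d) (hm : 9 ≤ m) (hs : 2 * s ≤ n) :
    s ^ 3 ≤ 1000 * n ^ 2 * Lg n ^ 3 * Nat.gcd n (8 * s) ∨ n ≤ 5 * s ∨ TypeB Φ X ∨ TypeD Φ X := by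
  classical
  have hc := F.pos
  have hc2 : (0 : ℝ) < c ^ 2 := by positivity
  have hm2 : 2 ≤ m := by omega
  have hmr : (9 : ℝ) ≤ m := by exact_mod_cast hm
  have hnpos := h.n_pos
  have hL1 : 1 ≤ Lg n := by unfold Lg; omega
  set g := Nat.gcd n (8 * s) with hg
  have hg1 : 1 ≤ g := Nat.gcd_pos_of_pos_left _ hnpos
  have hgen : n ≤ 12 * g * m ^ 2 := by
    have h1 := h.general F hm
    have h2 : 4 * (m + 2 * m ^ 2) ≤ 12 * m ^ 2 := by nlinarith
    calc n ≤ g * (4 * (m + 2 * m ^ 2)) := h1
      _ ≤ g * (12 * m ^ 2) := Nat.mul_le_mul_left _ h2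
      _ = 12 * g * m ^ 2 := by ring
  by_cases hs0 : s = 0
  · left
    rw [hs0]
    simp
  have hs1 : 1 ≤ s := Nat.one_le_iff_ne_zero.2 hs0
  rcases F.int_or h.sat hm2 h.l_mem with ⟨z0, hz0⟩ | ⟨z0, hz0⟩
  swap
  · -- half odd coordinates
    left
    have hm' : m ≤ Lg n := by
      have h1 := h.supp43 F h.l_mem Finset.univ (fun i _ => by
        rw [hz0 i]
        intro h2
        have h4 : ((2 * z0 i + 1 : ℤ) : ℝ) = 0 := by
          push_cast
          linarith
        have h5 : 2 * z0 i + 1 = 0 := by exact_mod_cast h4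
        omega)
      rw [Finset.card_univ, Fintype.card_fin] at h1
      exact h1
    have h1 : n ≤ 12 * g * Lg n ^ 2 := hgen.trans (Nat.mul_le_mul_left _ (Nat.pow_le_pow_left hm' 2))
    have h2 : s ≤ n := by omega
    calc s ^ 3 ≤ n ^ 3 := Nat.pow_le_pow_left h2 3
      _ = n ^ 2 * n := by ring
      _ ≤ n ^ 2 * (12 * g * Lg n ^ 2) := Nat.mul_le_mul_left _ h1
      _ ≤ n ^ 2 * (1000 * g * (Lg n ^ 2 * Lg n)) := by
        apply Nat.mul_le_mul_left
        apply Nat.mul_le_mul
        · omega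
        · exact Nat.le_mul_of_pos_right _ hL1
      _ = 1000 * n ^ 2 * Lg n ^ 3 * g := by ring
  by_cases hz1 : ∑ i, z0 i ^ 2 ≤ 1
  · right; right
    exact h.standard43 F (by omega) z0 hz0 hz1
  have hz2 : 2 ≤ ∑ i, z0 i ^ 2 := by omega
  -- the weight of maximal level
  obtain ⟨x, hx, hx1, hx2, hx3⟩ := h.exists_max43
  obtain ⟨z, hz⟩ := F.int_all43 h.sat h.l_mem z0 hz0 hx
  have hxsp := Sat.span27 h.sat hx
  have hzz : 2 ≤ ∑ i, z i ^ 2 := by
    have h1 := F.norm_eq hm2 hxsp z hz
    have h2 := F.norm_eq hm2 (Sat.span27 h.sat h.l_mem) z0 hz0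
    rw [hx2, h2] at h1
    have h4 : ∑ i, (z0 i : ℝ) ^ 2 = ∑ i, (z i : ℝ) ^ 2 := mul_left_cancel₀ hc2.ne' h1
    have h5 : ∑ i, z0 i ^ 2 = ∑ i, z i ^ 2 := by exact_mod_cast h4
    rw [← h5]
    exact hz2
  have hxe : ∀ i, (inner ℝ x (e i) : ℝ) = c * z i := by
    intro i
    have := hz i
    unfold cx at this
    rw [div_eq_iff hc.ne'] at this
    rw [this]
    ring
  -- the coordinates of `y`
  have hYex : ∀ i, ∃ k : ℤ, 2 * c * inner ℝ y (e i) = (k : ℝ) := by
    intro i
    obtain ⟨j, hij⟩ : ∃ j, i ≠ j := by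
      have : Nontrivial (Fin m) := Fin.nontrivial_iff_two_le.2 hm2
      obtain ⟨j, hj⟩ := exists_ne i
      exact ⟨j, hj.symm⟩
    obtain ⟨a, ha⟩ := h.lev _ (F.rt_mem hij (s := 1) (t := 1) (Or.inl rfl) (Or.inl rfl))
    obtain ⟨b, hb⟩ := h.lev _ (F.rt_mem hij (s := 1) (t := -1) (Or.inl rfl) (Or.inr rfl))
    rw [real_inner_comm, inner_rt] at ha hb
    refine ⟨a + b, ?_⟩
    push_cast at ha hb ⊢
    linarith
  choose Y hY using hYex
  have hye : ∀ i, (inner ℝ y (e i) : ℝ) = Y i / (2 * c) := by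
    intro i
    rw [← hY i]
    field_simp
  have hpar : ∀ i j, Even (Y i - Y j) := by
    intro i j
    by_cases hij : i = j
    · rw [hij, sub_self]
      exact ⟨0, rfl⟩
    · obtain ⟨b, hb⟩ := h.lev _ (F.rt_mem hij (s := 1) (t := -1) (Or.inl rfl) (Or.inr rfl))
      rw [real_inner_comm, inner_rt, hye, hye] at hb
      refine ⟨b, ?_⟩
      have h1 : ((Y i - Y j : ℤ) : ℝ) = ((b + b : ℤ) : ℝ) := by
        push_cast at hb ⊢
        field_simp at hb
        linarith
      exact_mod_cast h1
  have hprod : ∀ (s t : ℤ) (i j : Fin m), (inner ℝ x (rt e c s t i j) : ℝ) * inner ℝ (rt e c s t i j) y =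
      c ^ 2 / 2 * (((s * z i + t * z j) * (s * Y i + t * Y j) : ℤ) : ℝ) := by
    intro s t i j
    rw [real_inner_comm y (rt e c s t i j), inner_rt, inner_rt, hxe, hxe, hye, hye]
    push_cast
    field_simp
  have hp : ∀ i j, i ≠ j → 0 ≤ (z i + z j) * (Y i + Y j) := by
    intro i j hij
    have h1 := hx3 _ (F.rt_mem hij (s := 1) (t := 1) (Or.inl rfl) (Or.inl rfl))
    rw [hprod] at h1
    have h2 : (0 : ℝ) ≤ (((1 * z i + 1 * z j) * (1 * Y i + 1 * Y j) : ℤ) : ℝ) := by
      by_contra hcon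
      push Not at hcon
      have : c ^ 2 / 2 * (((1 * z i + 1 * z j) * (1 * Y i + 1 * Y j) : ℤ) : ℝ) < 0 :=
        mul_neg_of_pos_of_neg (by positivity) hcon
      linarith
    have h4 : 0 ≤ (1 * z i + 1 * z j) * (1 * Y i + 1 * Y j) := by exact_mod_cast h2
    simpa using h4
  have hq : ∀ i j, i ≠ j → 0 ≤ (z i - z j) * (Y i - Y j) := by
    intro i j hij
    have h1 := hx3 _ (F.rt_mem hij (s := 1) (t := -1) (Or.inl rfl) (Or.inr rfl))
    rw [hprod] at h1
    have h2 : (0 : ℝ) ≤ (((1 * z i + (-1) * z j) * (1 * Y i + (-1) * Y j) : ℤ) : ℝ) := by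
      by_contra hcon
      push Not at hcon
      have : c ^ 2 / 2 * (((1 * z i + (-1) * z j) * (1 * Y i + (-1) * Y j) : ℤ) : ℝ) < 0 :=
        mul_neg_of_pos_of_neg (by positivity) hcon
      linarith
    have h4 : 0 ≤ (1 * z i + (-1) * z j) * (1 * Y i + (-1) * Y j) := by exact_mod_cast h2
    have h5 : (1 * z i + (-1) * z j) * (1 * Y i + (-1) * Y j) = (z i - z j) * (Y i - Y j) := by ring
    rw [h5] at h4
    exact h4
  have hsum : ∑ i, z i * Y i ≤ 2 := by
    have h1 : (inner ℝ x y : ℝ) = (((∑ i, z i * Y i : ℤ)) : ℝ) / 2 := by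
      rw [F.inner_eq hm2 hxsp]
      push_cast
      rw [Finset.sum_div]
      refine Finset.sum_congr rfl fun i _ => ?_
      rw [hxe, hye]
      field_simp
    have h2 : (inner ℝ x y : ℝ) ≤ 1 := by
      rcases h3 x hx with h | h | h <;> rw [h] <;> norm_num
    rw [h1] at h2
    have h4 : (((∑ i, z i * Y i : ℤ)) : ℝ) ≤ ((2 : ℤ) : ℝ) := by
      push_cast at h2 ⊢
      linarith
    exact_mod_cast h4
  have hyy : 4 * c ^ 2 * (inner ℝ y y : ℝ) = ∑ i, (Y i : ℝ) ^ 2 := by
    rw [F.inner_eq hm2 h.y_mem, Finset.mul_sum]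
    refine Finset.sum_congr rfl fun i _ => ?_
    rw [hye]
    field_simp
    ring
  have hidt := h.idt
  rw [F.finrank hm2, ← hx1] at hidt
  have hcard := F.card
  push_cast at hidt
  have hsr : (1 : ℝ) ≤ s := by exact_mod_cast hs1
  have hcpos : (0 : ℝ) < (Φ.card : ℝ) := by
    have := Finset.card_pos.2 h.rs.nonempty
    exact_mod_cast this
  have hYne : ∃ i, Y i ≠ 0 := by
    by_contra hcon
    push Not at hcon
    have h1 : (inner ℝ y y : ℝ) = 0 := by
      have h2 : ∑ i, (Y i : ℝ) ^ 2 = 0 := Finset.sum_eq_zero fun i _ => by rw [hcon i]; norm_num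
      rw [h2] at hyy
      have : (4 * c ^ 2 : ℝ) ≠ 0 := by positivity
      exact (mul_eq_zero.1 hyy).resolve_left this
    rw [h1, mul_zero] at hidt
    have : (0 : ℝ) < 8 * s * (m + Φ.card) := mul_pos (by linarith) (by linarith)
    linarith
  have hle := F.le
  rcases core43 hm hp hq hsum hpar hYne hzz with ⟨hY1, hz2'⟩ | ⟨i1, hYi, hY0, hz1'⟩
  · -- half odd grading element
    right; left
    have hY2 : ∑ i, (Y i : ℝ) ^ 2 = m := by
      have h1 : ∀ i ∈ (Finset.univ : Finset (Fin m)), (Y i : ℝ) ^ 2 = 1 := by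
        intro i _
        have : (Y i) ^ 2 = 1 := by rw [← sq_abs, hY1 i]; norm_num
        exact_mod_cast this
      rw [Finset.sum_congr rfl h1, Finset.sum_const, Finset.card_univ, Fintype.card_fin, nsmul_eq_mul, mul_one]
    rw [hY2] at hyy
    have hd1 : d ≠ 1 := by
      intro hd
      let i0 : Fin m := ⟨0, by omega⟩
      obtain ⟨q, hq'⟩ := h.lev (((d : ℝ) * c) • e i0) ((F.mem _).2 (Or.inr ⟨by omega, i0, Or.inl rfl⟩))
      rw [inner_smul_left, real_inner_comm y (e i0), hye, hd] at hq'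
      simp only [conj_trivial] at hq'
      have h1 : ((Y i0 : ℤ) : ℝ) = ((2 * q : ℤ) : ℝ) := by
        push_cast at hq' ⊢
        field_simp at hq'
        linarith
      have h2 : Y i0 = 2 * q := by exact_mod_cast h1
      have h4 := hY1 i0
      rw [h2, abs_mul] at h4
      norm_num at h4
      omega
    have hd02 : d = 0 ∨ d = 2 := by omega
    have hyy' : (inner ℝ y y : ℝ) = m / (4 * c ^ 2) := by
      rw [← hyy]
      field_simp
    rw [hyy'] at hidt
    have hm0 : (m : ℝ) ≠ 0 := by linarith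
    -- the two shapes of the weight
    have key : ∀ C : ℝ, cas Φ x = c ^ 2 * C → (n : ℝ) * C * m = 8 * s * (m + Φ.card) := by
      intro C hC
      rw [hC] at hidt
      have h1 : 4 * (n : ℝ) * (c ^ 2 * C) * (m / (4 * c ^ 2)) = n * C * m := by field_simp
      rw [h1] at hidt
      exact hidt
    have hfin : ∀ C : ℝ, (4 * (m : ℝ) - 4 + 2 * d ≤ C) → (n : ℝ) * C * m = 8 * s * (m + Φ.card) → n ≤ 5 * s := by
      intro C hC hE
      have hn0 : (0 : ℝ) ≤ n := Nat.cast_nonneg n
      have h1 : (n : ℝ) * (4 * m - 4 + 2 * d) * m ≤ 8 * s * (m + Φ.card) := by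
        rw [← hE]
        have h2 : (n : ℝ) * (4 * m - 4 + 2 * d) ≤ n * C := mul_le_mul_of_nonneg_left hC hn0
        exact mul_le_mul_of_nonneg_right h2 (by linarith)
      have h2 : (n : ℝ) ≤ 5 * s := by
        rcases hd02 with hd | hd
        · rw [hcard, hd, if_pos rfl] at h1
          push_cast at h1
          have h4 : (n : ℝ) * (4 * m - 4) ≤ 8 * s * (2 * m - 1) := by
            have h5 : ((n : ℝ) * (4 * m - 4)) * m ≤ (8 * s * (2 * m - 1)) * m := by nlinarith
            exact le_of_mul_le_mul_right h5 (by linarith)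
          by_contra hcon
          push Not at hcon
          have h6 : 5 * (s : ℝ) * (4 * m - 4) < n * (4 * m - 4) := mul_lt_mul_of_pos_right hcon (by linarith)
          nlinarith
        · rw [hcard, hd, if_neg (by norm_num)] at h1
          push_cast at h1
          have h4 : (n : ℝ) * (4 * m) ≤ 8 * s * (2 * m + 1) := by
            have h5 : ((n : ℝ) * (4 * m)) * m ≤ (8 * s * (2 * m + 1)) * m := by nlinarith
            exact le_of_mul_le_mul_right h5 (by linarith)
          by_contra hcon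
          push Not at hcon
          have h6 : 5 * (s : ℝ) * (4 * m) < n * (4 * m) := mul_lt_mul_of_pos_right hcon (by linarith)
          nlinarith
      exact_mod_cast h2
    rcases small_z (z := z) (by rw [hz2']) with h0 | ⟨k, hk, hj⟩ | ⟨k, hk, hj⟩ | ⟨k, k', hkk, hk, hk', hj⟩
    · exfalso
      have : ∑ i, |z i| = 0 := Finset.sum_eq_zero fun i _ => by rw [h0 i]; norm_num
      omega
    · exfalso
      have h1 : ∑ i, |z i| = |z k| :=
        Finset.sum_eq_single k (fun i _ hi => by rw [hj i hi]; norm_num) (fun h => absurd (Finset.mem_univ k) h)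
      omega
    · have h1 := F.cas_two43 hm2 hxsp z hz hk hj
      exact hfin _ (by linarith) (key _ h1)
    · have h1 := F.cas_one43 hm2 hxsp z hz (K := 2) (by
        intro i
        by_cases hi : i = k
        · rw [hi, hk]
        · by_cases hi' : i = k'
          · rw [hi', hk']
          · rw [hj i hi hi']
            norm_num) (by rw [hz2']; norm_num)
      exact hfin _ (by push_cast; linarith) (key _ h1)
  · -- integral grading element
    left
    have hY2 : ∑ i, (Y i : ℝ) ^ 2 = 4 := by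
      rw [Finset.sum_eq_single i1]
      · have : (Y i1) ^ 2 = 4 := by rw [← sq_abs, hYi]; norm_num
        exact_mod_cast this
      · intro j _ hj
        rw [hY0 j hj]
        norm_num
      · intro h
        exact absurd (Finset.mem_univ _) h
    rw [hY2] at hyy
    have hyy' : (inner ℝ y y : ℝ) = 1 / c ^ 2 := by
      field_simp
      linarith
    rw [hyy'] at hidt
    -- the support
    set A : Finset (Fin m) := Finset.univ.filter fun i => z i ≠ 0 with hA
    have hAL : A.card ≤ Lg n := h.supp43 F hx A (by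
      intro i hi
      rw [hz i]
      exact_mod_cast (Finset.mem_filter.1 hi).2)
    have hKs : ∑ i, |z i| = (A.card : ℤ) := by
      have h1 : ∀ i ∈ (Finset.univ : Finset (Fin m)), |z i| = if z i ≠ 0 then 1 else 0 := by
        intro i _
        by_cases hi : z i = 0
        · rw [hi, if_neg (by simp)]
          norm_num
        · rw [if_pos hi]
          have h2 := Int.one_le_abs hi
          have h4 := hz1' i
          omega
      rw [Finset.sum_congr rfl h1, ← Finset.sum_filter, Finset.sum_const, nsmul_eq_mul, mul_one]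
    have hK2 : 2 ≤ A.card := by
      have h1 : ∑ i, z i ^ 2 = ∑ i, |z i| := by
        refine Finset.sum_congr rfl fun i _ => ?_
        rw [← sq_abs]
        have h2 : |z i| = 0 ∨ |z i| = 1 := by
          have := hz1' i
          have := abs_nonneg (z i)
          omega
        rcases h2 with h2 | h2 <;> rw [h2] <;> norm_num
      rw [h1, hKs] at hzz
      exact_mod_cast hzz
    have hcas := F.cas_one43 hm2 hxsp z hz hz1' hKs
    rw [hcas] at hidt
    have h1 : 4 * (n : ℝ) * (c ^ 2 * (A.card * (2 * m - A.card + d))) * (1 / c ^ 2) =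
        4 * (n * (A.card * (2 * m - A.card + d))) := by field_simp
    rw [h1] at hidt
    -- `s m ≤ n k`
    have hkr : (2 : ℝ) ≤ A.card := by exact_mod_cast hK2
    have hdr : (d : ℝ) ≤ 2 := by exact_mod_cast hle
    have hn0 : (0 : ℝ) ≤ n := Nat.cast_nonneg n
    have hmk : (s : ℝ) * m ≤ n * A.card := by
      have h2 : (m : ℝ) * (2 * m - 1) ≤ m + Φ.card := by
        rw [hcard]
        by_cases hd0 : d = 0
        · rw [if_pos hd0]
          nlinarith
        · rw [if_neg hd0]
          nlinarith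
      have h4 : (n : ℝ) * (A.card * (2 * m - A.card + d)) ≤ n * (A.card * (2 * m)) := by
        apply mul_le_mul_of_nonneg_left _ hn0
        apply mul_le_mul_of_nonneg_left _ (by linarith)
        linarith
      have h5 : 8 * (s : ℝ) * (m * (2 * m - 1)) ≤ 4 * (n * (A.card * (2 * m))) := by
        calc 8 * (s : ℝ) * (m * (2 * m - 1)) ≤ 8 * s * (m + Φ.card) :=
              mul_le_mul_of_nonneg_left h2 (by linarith)
          _ = 4 * (n * (A.card * (2 * m - A.card + d))) := hidt.symm
          _ ≤ 4 * (n * (A.card * (2 * m))) := by linarith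
      have h6 : (s : ℝ) * (2 * m - 1) ≤ n * A.card := by
        have h7 : ((s : ℝ) * (2 * m - 1)) * m ≤ (n * A.card) * m := by nlinarith
        exact le_of_mul_le_mul_right h7 (by linarith)
      have h8 : (s : ℝ) * m ≤ s * (2 * m - 1) := mul_le_mul_of_nonneg_left (by linarith) (by linarith)
      linarith
    have hmk' : s * m ≤ n * Lg n := by
      have h2 : s * m ≤ n * A.card := by exact_mod_cast hmk
      exact h2.trans (Nat.mul_le_mul_left _ hAL)
    -- the bound
    have h2 : n * s ^ 2 ≤ n * (12 * g * n * Lg n ^ 2) := by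
      calc n * s ^ 2 ≤ (12 * g * m ^ 2) * s ^ 2 := Nat.mul_le_mul_right _ hgen
        _ = 12 * g * (s * m) ^ 2 := by ring
        _ ≤ 12 * g * (n * Lg n) ^ 2 := Nat.mul_le_mul_left _ (Nat.pow_le_pow_left hmk' 2)
        _ = n * (12 * g * n * Lg n ^ 2) := by ring
    have h4 : s ^ 2 ≤ 12 * g * n * Lg n ^ 2 := Nat.le_of_mul_le_mul_left h2 hnpos
    have h5 : s ≤ n := by omega
    calc s ^ 3 = s * s ^ 2 := by ring
      _ ≤ n * (12 * g * n * Lg n ^ 2) := Nat.mul_le_mul h5 h4
      _ = 12 * (g * n ^ 2 * Lg n ^ 2) := by ring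
      _ ≤ 1000 * (g * n ^ 2 * (Lg n ^ 2 * Lg n)) := by
        apply Nat.mul_le_mul (by norm_num)
        apply Nat.mul_le_mul_left
        exact Nat.le_mul_of_pos_right _ hL1
      _ = 1000 * n ^ 2 * Lg n ^ 3 * g := by ring

end TF
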